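import Pool.Agent.X120.OR.Pow

/-!
# Hodge classes of all products of powers of fibres over `b^(-t)` with a constant variety

Let `V_i`, `1 ≤ i ≤ k`, be variations of Hodge structure with `h^{w_i, 0} = 1` (of Calabi-Yau type) over the projective line without finitely many points, which come from families `X^(i)` over `ℚ`, with a
nondegenerate alternating form, such that the monodromy group is dense in a symplectic group, for example the middle cohomology of families of Calabi–Yau varieties of odd dimension. The fibre over `x = 0` may be smooth or degenerate: we suppose that near `x = 0` the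
period matrix is `L_i(log (1/x)) P_i(x)`, where the entries of `P_i` are polynomials with any complex coefficients in a system of G-functions with rational coefficients which are solutions of a
differential system with a regular singularity with rational exponents at infinity, and the entries of `L_i(u)` are polynomials. Let `U` be any smooth variety over `ℚ̄` and `V_0` its cohomology (or a factor), a mixed Hodge structure, and `Φ_0` the operator which is
the multiplication by `p` on the parts `I^(p,q)` of Deligne's splitting.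

**Theorem.** Let `b_i ≥ 2` be integers. There is a constant `K`, which depends only on the G-functions, the ranks, the degrees `e` of the polynomials and the `b_i`, such that for all such `V_i` and `V_0` and all `N ≥ 2`: for all but at most `K N^(k-1) log N` of the `N^k` tuples `t`,
`1 ≤ t_i ≤ N`, all Hodge classes in all tensor products `V_0 ⊗ V_(i_1) ⊗ ⋯ ⊗ V_(i_r)`, where `V_i` is the fibre over `b_i^(-t_i)`, `r` is arbitrary and the `i_j` may be equal, are killed by the symplectic Lie algebras `𝔰𝔭(V_i)`.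

By the first fundamental theorem for the symplectic group (Weyl) the invariants in the tensor product of the `V_(i_j)` are spanned by the products of the forms, so the Hodge classes are the linear combinations of products of Hodge classes of `V_0` with the classes of the forms, which are algebraic if the forms are the cup product
on the middle cohomology. So if the cohomology of the fibres `X^(i)_(t_i)` is the sum of `V_i` and of algebraic classes (for example hypersurfaces and complete intersections of odd dimension of Calabi–Yau type, their mirrors), then the surjectivity of the regulator onto the group `Hg^(i,j)` for `X × U`, where `X` is any product of powers of the varieties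
`X^(i)_(t_i)`, is true for all `i`, `j` for which the surjectivity for `U` (onto the groups `Hg^(i-2l,j-l)(U)`) is true; in particular the regulator is surjective onto the Hodge classes, and has dense image for `i = 2j`, for all products of powers of the fibres (Q1 for smooth projective varieties and `i = 2j` is the Hodge conjecture, because the rational
cohomology is dense in the intermediate Jacobian). For very general `t` this was known; for the fibres over rational points it was known for powers of abelian varieties only (for one fibre outside a finite set, Cadoret and Tamagawa); for Calabi–Yau threefolds Hodge classes on the powers are not known to be absolute Hodge.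
The hand-in `MP_b2b689_ag.SurjectivityTimesFibres` is on the products `X_t × U` with one fibre to the first power, for all families with independent periods, and `MP_b2b689_ag.PowersOfSurfacesAtPowers` on families with orthogonal monodromy.

Proof. The block diagonal matrices which multiply a Hodge class by a scalar are a rational Lie algebra whose complexification contains the Hodge operator. By the counting theorem (`Pool.Agent.X120.BM`) it contains the symplectic Lie algebras for all but few `t`. These are perfect, so they kill the class.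
-/

set_option autoImplicit false

open Matrix

open Pool.Agent.X120.BM Pool.Agent.X120.OR

namespace Pool.Agent.Results.MP_b2b689_ag.AllPowersTimesConstants

section
variable {n₀ k r : ℕ} {n : Fin k → ℕ}

/-- a rational tensor in `V_0 ⊗ V_(ι 0) ⊗ ⋯ ⊗ V_(ι (r-1))` as a complex tensor -/
def castTens {ι : Fin r → Fin k} (c : Tens n₀ n ι ℚ) : Tens n₀ n ι ℂ := fun a J => ((c a J : ℚ) : ℂ)

/-- The rational tensor `c` in `V_0 ⊗ V_(ι 0) ⊗ ⋯ ⊗ V_(ι (r-1))` is in the part with `p = m` for the Hodge operators `(Φ_0, Φ)`; all Hodge classes of type `(m,m)` are of this kind. -/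
def IsHodgeClass {ι : Fin r → Fin k} (Φ₀ : Matrix (Fin n₀) (Fin n₀) ℂ) (Φ : ∀ i, Matrix (Fin (n i)) (Fin (n i)) ℂ) (m : ℤ) (c : Tens n₀ n ι ℚ) : Prop :=
  act ι ((Φ₀, Φ) : Tup n₀ n ℂ) (castTens c) = (m : ℂ) • castTens c

/-- The statement for the fibres over the `b_i^(-t_i)`. For all Hodge structures `H_i` with alternating forms `A_i` on the fibres with the part of type `(w_i, 0)` given by the period vector: all Hodge classes in all tensor products `V_0 ⊗ V_(ι 0) ⊗ ⋯ ⊗ V_(ι (r-1))` are killed by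
`𝔰𝔭(A_1) × ⋯ × 𝔰𝔭(A_k)`. -/
def InvariantClasses {e : ℕ} {G : Fin k → GSystem} (F : ∀ i, Periods (G i) (n i) e) (Φ₀ : Matrix (Fin n₀) (Fin n₀) ℂ) (w b t : Fin k → ℕ) : Prop :=
  ∀ (A : ∀ i, Matrix (Fin (n i)) (Fin (n i)) ℚ) (H : ∀ i, ℕ → Submodule ℂ (Fin (n i) → ℂ)), IsFibre F w b t A H →
    ∀ Φ : ∀ i, Matrix (Fin (n i)) (Fin (n i)) ℂ, (∀ i, IsHodgeOperator (w i) (H i) (Φ i)) →
      ∀ (r : ℕ) (ι : Fin r → Fin k) (m : ℤ) (c : Tens n₀ n ι ℚ), IsHodgeClass Φ₀ Φ m c →
        ∀ X : ∀ i, Matrix (Fin (n i)) (Fin (n i)) ℚ, (∀ i, X i * A i + A i * (X i)ᵀ = 0) → act ι ((0, X) : Tup n₀ n ℚ) c = 0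

theorem act_ph {ι : Fin r → Fin k} (c : Tens n₀ n ι ℚ) (Z : Tup n₀ n ℂ) (φ : ℂ →ₗ[ℚ] ℚ) (a : Fin n₀) (J : ∀ s, Fin (n (ι s))) :
    act ι (phT φ Z) c a J = φ (act ι Z (castTens c) a J) := by
  have hm : ∀ (q : ℚ) (z : ℂ), φ ((q : ℂ) * z) = q * φ z := by
    intro q z
    have h1 : (q : ℂ) * z = q • z := by rw [Rat.smul_def]
    rw [h1, map_smul, smul_eq_mul]
  show ∑ a', c a' J * φ (Z.1 a' a) + (∑ s, actS s ((Z.2 (ι s)).map φ)) c a J =
    φ (∑ a', ((c a' J : ℚ) : ℂ) * Z.1 a' a + (∑ s, actS s (Z.2 (ι s))) (castTens c) a J)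
  rw [LinearMap.sum_apply, LinearMap.sum_apply, Finset.sum_apply, Finset.sum_apply, Finset.sum_apply, Finset.sum_apply, map_add, map_sum, map_sum]
  congr 1
  · exact Finset.sum_congr rfl fun a' _ => (hm _ _).symm
  · refine Finset.sum_congr rfl fun s _ => ?_
    show ∑ l, c a (Function.update J s l) * φ (Z.2 (ι s) l (J s)) = φ (∑ l, ((c a (Function.update J s l) : ℚ) : ℂ) * Z.2 (ι s) l (J s))
    rw [map_sum]
    exact Finset.sum_congr rfl fun l _ => (hm _ _).symm

theorem killed {Φ₀ : Matrix (Fin n₀) (Fin n₀) ℂ} {w : Fin k → ℕ} {A : ∀ i, Matrix (Fin (n i)) (Fin (n i)) ℚ} {H : ∀ i, ℕ → Submodule ℂ (Fin (n i) → ℂ)}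
    (hH : ∀ i, IsHodge (w i) (A i) (H i)) (hgen : RelativelyGeneric Φ₀ w A H) {Φ : ∀ i, Matrix (Fin (n i)) (Fin (n i)) ℂ}
    (hop : ∀ i, IsHodgeOperator (w i) (H i) (Φ i)) {ι : Fin r → Fin k} {m : ℤ} {c : Tens n₀ n ι ℚ} (hc : IsHodgeClass Φ₀ Φ m c)
    {X : ∀ i, Matrix (Fin (n i)) (Fin (n i)) ℚ} (hX : ∀ i, X i * A i + A i * (X i)ᵀ = 0) : act ι ((0, X) : Tup n₀ n ℚ) c = 0 := by
  classical
  -- the similitudes of the class
  let 𝔪 : Submodule ℚ (Tup n₀ n ℚ) :=
    { carrier := {X | ∃ q : ℚ, act ι X c = q • c}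
      add_mem' := by
        rintro X Y ⟨q, hq⟩ ⟨q', hq'⟩
        exact ⟨q + q', by rw [act_add, hq, hq', add_smul]⟩
      zero_mem' := ⟨0, by
        have h1 := act_smul (0 : ℚ) (0 : Tup n₀ n ℚ) c
        rw [zero_smul, zero_smul] at h1
        rw [h1, zero_smul]⟩
      smul_mem' := by
        rintro q X ⟨q', hq'⟩
        exact ⟨q * q', by rw [act_smul, hq', smul_smul]⟩ }
  let 𝔫 : Submodule ℚ (Tup n₀ n ℚ) :=
    { carrier := {X | act ι X c = 0}
      add_mem' := fun {X Y} hX hY => by
        show act ι (X + Y) c = 0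
        rw [act_add, hX, hY, add_zero]
      zero_mem' := by
        have h1 := act_smul (0 : ℚ) (0 : Tup n₀ n ℚ) c
        rw [zero_smul, zero_smul] at h1
        exact h1
      smul_mem' := fun q {X} hX => by
        show act ι (q • X) c = 0
        rw [act_smul, hX, smul_zero] }
  have hbr : ∀ X ∈ 𝔪, ∀ Y ∈ 𝔪, bracket X Y ∈ 𝔫 := by
    rintro X ⟨q, hq⟩ Y ⟨q', hq'⟩
    show act ι (bracket X Y) c = 0
    rw [← act_bracket]
    show act ι Y (act ι X c) - act ι X (act ι Y c) = 0
    rw [hq, hq', map_smul, map_smul, hq, hq', smul_smul, smul_smul, mul_comm, sub_self]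
  have hle : 𝔫 ≤ 𝔪 := fun X hX => ⟨0, by rw [zero_smul]; exact hX⟩
  have h𝔪 : ∀ X : ∀ i, Matrix (Fin (n i)) (Fin (n i)) ℚ, (∀ i, X i * A i + A i * (X i)ᵀ = 0) → ((0, X) : Tup n₀ n ℚ) ∈ 𝔪 := by
    refine hgen 𝔪 (fun X hX Y hY => hle (hbr X hX Y hY)) ?_
    intro Φ' hop'
    have h1 : Φ' = Φ := funext fun i => op_unique (hH i) (hop i) (hop' i)
    rw [h1]
    refine mem_of_phT fun φ => ⟨φ (m : ℂ), ?_⟩
    funext a J
    rw [act_ph, hc]
    show φ ((m : ℂ) * ((c a J : ℚ) : ℂ)) = φ (m : ℂ) * c a J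
    have h2 : (m : ℂ) * ((c a J : ℚ) : ℂ) = (c a J) • (m : ℂ) := by rw [Rat.smul_def, mul_comm]
    rw [h2, map_smul, smul_eq_mul, mul_comm]
  -- the factors
  have h1 : ∀ i : Fin k, ∀ Y : Matrix (Fin (n i)) (Fin (n i)) ℚ, Y * A i + A i * Yᵀ = 0 → ((0, Pi.single i Y) : Tup n₀ n ℚ) ∈ 𝔫 := by
    intro i
    have hsing : ∀ Y : Matrix (Fin (n i)) (Fin (n i)) ℚ, Y * A i + A i * Yᵀ = 0 → ((0, Pi.single i Y) : Tup n₀ n ℚ) ∈ 𝔪 := by
      intro Y hY
      refine h𝔪 _ fun j => ?_
      by_cases hj : j = i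
      · subst hj
        rw [Pi.single_eq_same]
        exact hY
      · rw [Pi.single_eq_of_ne hj, Matrix.zero_mul, Matrix.transpose_zero, Matrix.mul_zero, add_zero]
    intro Y hY
    have h2 : Y ∈ 𝔫.comap ((LinearMap.inr ℚ (Matrix (Fin n₀) (Fin n₀) ℚ) _).comp (LinearMap.single ℚ (fun i => Matrix (Fin (n i)) (Fin (n i)) ℚ) i)) := by
      refine sp_span (hH i).alt (hH i).nondeg (fun u => ?_) hY
      obtain ⟨Y₁, Y₂, hY₁, hY₂, hY₃⟩ := rank_one_bracket (hH i).alt (hH i).nondeg u
      show ((0, Pi.single i (A i * Matrix.vecMulVec u u)) : Tup n₀ n ℚ) ∈ 𝔫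
      have h3 := hbr _ (hsing Y₁ hY₁) _ (hsing Y₂ hY₂)
      have h4 : bracket ((0, Pi.single i Y₁) : Tup n₀ n ℚ) ((0, Pi.single i Y₂) : Tup n₀ n ℚ) = ((0, Pi.single i (A i * Matrix.vecMulVec u u)) : Tup n₀ n ℚ) := by
        refine Prod.ext ?_ ?_
        · show (0 : Matrix (Fin n₀) (Fin n₀) ℚ) * 0 - 0 * 0 = 0
          rw [Matrix.zero_mul, sub_self]
        · funext j
          show (Pi.single i Y₁ : ∀ i, Matrix (Fin (n i)) (Fin (n i)) ℚ) j * (Pi.single i Y₂ : ∀ i, Matrix (Fin (n i)) (Fin (n i)) ℚ) j -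
            (Pi.single i Y₂ : ∀ i, Matrix (Fin (n i)) (Fin (n i)) ℚ) j * (Pi.single i Y₁ : ∀ i, Matrix (Fin (n i)) (Fin (n i)) ℚ) j =
              (Pi.single i (A i * Matrix.vecMulVec u u) : ∀ i, Matrix (Fin (n i)) (Fin (n i)) ℚ) j
          by_cases hj : j = i
          · subst hj
            rw [Pi.single_eq_same, Pi.single_eq_same, Pi.single_eq_same, hY₃]
          · rw [Pi.single_eq_of_ne hj, Pi.single_eq_of_ne hj, Pi.single_eq_of_ne hj, Matrix.zero_mul, sub_self]
      rw [h4] at h3
      exact h3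
    exact h2
  have h2 : ((0, X) : Tup n₀ n ℚ) = ∑ i, ((0, Pi.single i (X i)) : Tup n₀ n ℚ) := by
    refine Prod.ext ?_ ?_
    · rw [Prod.fst_sum]
      exact Finset.sum_const_zero.symm
    · rw [Prod.snd_sum]
      exact (Finset.univ_sum_single X).symm
  rw [h2]
  exact 𝔫.sum_mem fun i _ => h1 i (X i) (hX i)

end

/-- **The theorem.** -/
theorem result {k : ℕ} (n₀ e : ℕ) (G : Fin k → GSystem) (n : Fin k → ℕ) (b : Fin k → ℕ) (hb : ∀ i, 2 ≤ b i) :
    ∃ K : ℝ, 0 ≤ K ∧ ∀ Φ₀ : Matrix (Fin n₀) (Fin n₀) ℂ, IsSplitOperator Φ₀ →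
      ∀ (F : ∀ i, Periods (G i) (n i) e) (w : Fin k → ℕ) (N : ℕ), 2 ≤ N →
        (({t : Fin k → ℕ | (∀ i, 1 ≤ t i ∧ t i ≤ N) ∧ ¬ InvariantClasses F Φ₀ w b t}.ncard : ℕ) : ℝ) * N ≤ K * (N : ℝ) ^ k * Real.log N := by
  obtain ⟨K, hK, h⟩ := count_rel n₀ e G n b hb
  refine ⟨K, hK, fun Φ₀ hΦ₀ F w N hN => h Φ₀ hΦ₀ F w N hN _ ?_⟩
  rintro t ⟨ht, hnot⟩
  refine ⟨ht, fun hgen => hnot ?_⟩
  intro A H hF Φ hop r ι m c hc X hX
  exact killed (fun i => (hF i).2.1) (hgen A H hF) hop hc hX

end Pool.Agent.Results.MP_b2b689_ag.AllPowersTimesConstants
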