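import Pool.Agent.X312.FK.Hom

/-!
# Gap laws for the density of the regulators of `Y × X ^ n` into absolute Hodge cohomology

Let `X` be a smooth projective variety over `ℂ`, which can be defined over a number field and such
that homological and numerical equivalence agree on its powers (known for surfaces, abelian
varieties and products of them). Let `Y` be **any smooth variety** over `ℂ` which can be defined
over a number field, open or projective. Fix an integer `a` and consider the regulators

`r : H_M^(2 j - a)(Y × Z, ℚ(j)) → H_H^(2 j - a)(Y × Z, ℚ(j))`, `j ∈ ℤ`,

for the powers `Z` of `X`. Let `J_ℝ(Z)` be the sum over `j` of the quotients of the groups `J^(2 j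
- a, j)(Y × Z)` by the closures of zero: with `V = W_(2 j) H^(2 j - a - 1)(Y × Z)` this is the sum
of the finite-dimensional real vector spaces `V_ℂ / (V_ℝ(j) + F^j V_ℂ)`. A subgroup of `J^(2 j -
a, j)(Y × Z)` which is a rational vector space is dense if and only if its image generates the
real vector space `J_ℝ`, since the closed subgroups of a real vector space which are rational
vector spaces are real subspaces. Let `ρ(Z)` be the rank of the cycles of all codimensions on `Z`
modulo numerical equivalence, `b` the sum of the Betti numbers of `X`, and `ε_n = 4 (m + 3) b ^ (m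
+ 5) log (n + 1) / n`. For all `m ≥ 1`:

**the intersection of the image of** `r` **with** `J^(2 j - a, j)(Y × X ^ m)` **is dense for all**
`j`, **or for all** `n ≥ 1` **the quotient of** `J_ℝ(X ^ n)` **by the real subspace generated by
this intersection for** `Y × X ^ n` **has dimension at least** `(1 - ε_n) ρ(X ^ n)`.

In the same way the theorem can be applied to the spaces `Hg^(2 j - a, j)(Y × Z) ⊗ ℝ`: **the
regulators of** `Y × X ^ m` **map onto** `Hg^(2 j - a, j)` **for all** `j`, **or for all** `n ≥ 1`
**the quotients of the spaces** `Hg^(2 j - a, j)(Y × X ^ n)` **by the images of the regulators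
have together dimension at least** `(1 - ε_n) ρ(X ^ n)`. So if the image of the regulator is not
dense for one `Y × X ^ m`, then the closure of the image has a very large codimension for all the
varieties `Y × X ^ n`.

The proof. For `Z` a power of `X` the algebraic correspondences act on the spaces `T(Z)` and
`A(Z)`. If `A(P) ≠ T(P)` for `P = X ^ m`, one takes an idempotent algebraic correspondence `g` on
`P` of minimal rank with `g T(P) ⊄ A(P)` and an element `z` of `g T(P)` which is not in `A(P)`.
The correspondences `x` with `x z ∈ A(P)` have a nilpotent compression `g x g`, so the trace of `g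
x` vanishes, and so `dim T(Z) / A(Z)` is at least the rank of the trace form `(u, v) ↦ tr (g v u)`
on the correspondences between `P` and `Z`; for `Z = X ^ n` this rank is compared with `ρ(X ^ n)`
by the log-convexity of the sequence of the ranks of the intersection forms and by the symmetric
group.
-/

set_option autoImplicit false

open CategoryTheory AlgebraicGeometry

universe u v w

namespace Pool.Agent.Results.MP_b2b689_ag.FunctorGapLaw

open Pool.Agent.H914 VarClass Obj WeilCohomology
open Pool.Agent.X312.FK (HomData HomData.IsFunctor IndepMod gapBound)
open Pool.Agent.Y133.Half (pw cycRank)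

variable {k : Type u} [Field k] {𝒱 : VarClass k} {ops : CycleOps 𝒱}
  {W : WeilCohomology.{u, v} ops}

/-- The sum of the Betti numbers of `X`. -/
noncomputable def totalBetti (W : WeilCohomology.{u, v} ops) (X : 𝒱.Obj) : ℕ :=
  Module.finrank W.K (W.H X)

/-- The quotient of `T.M Z` by the subspace `A Z` has dimension at least `x`. -/
def Codim {T : HomData W} (A : ∀ Z : 𝒱.Obj, Submodule W.K (T.M Z)) (Z : 𝒱.Obj) (x : ℝ) : Prop :=
  IndepMod (Set.univ : Set (T.M Z)) (A Z) x

/-- **The gap law for the regulators.** Here `K = ℝ` is the field of coefficients of the cohomology,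
`J.M Z` is in the intended use the real vector space `J_ℝ(Z)` and `A Z` is the real subspace generated by
the image of the regulators of `Y × Z` (or `J.M Z` is the sum of the spaces
`Hg^(2 j - a, j)(Y × Z) ⊗ ℝ` and `A Z` is the subspace generated by the image of the regulators). The
correspondences between smooth projective varieties act on these spaces, and `pw X m` is the product of
`m + 1` copies of `X`. -/
theorem result (J : HomData W) (hJ : J.IsFunctor) (A : ∀ Z : 𝒱.Obj, Submodule W.K (J.M Z))
    (hA : J.IsStable A) (X : 𝒱.Obj) (hD : ∀ n : ℕ, HomEqNum W (pw X n)) (m : ℕ) :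
    (∀ x : J.M (pw X m), x ∈ A (pw X m)) ∨
    ∀ n : ℕ, Codim A (pw X n) (gapBound (totalBetti W X) (cycRank ops (pw X n)) m n) := by
  rcases Pool.Agent.X312.FK.hom_law hJ X hD (N' := A) (N := fun _ => ⊤) hA
    (fun _ _ _ _ _ _ => Submodule.mem_top) m with h | h
  · exact Or.inl fun x => h Submodule.mem_top
  · right
    intro n
    obtain ⟨r, a, h1, h2, _⟩ := h n
    exact ⟨r, a, h1, h2, fun _ => Set.mem_univ _⟩

end Pool.Agent.Results.MP_b2b689_ag.FunctorGapLaw
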