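import Pool.Agent.X120.OR.Ten

/-!
# Hodge classes of the powers of the fibres over `b^(-t)` of families of surfaces with `p_g = 2` and big monodromy

Let `f : X → S` be a family of smooth projective surfaces with `p_g = 2` and first Betti number zero over an open part `S` of the projective line, defined over `ℚ` (or over a number field), with `H^2(X_s, ℚ(1)) = T_s ⊕ N`, where `N` is a constant part
which consists of algebraic classes, and `T` has rank `n`, such that the differential Galois group of the Picard–Fuchs system of `T` (the Zariski closure of the monodromy group,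
if the monodromy is not finite) contains the orthogonal group of the form on `T`, for example a Lefschetz pencil on a threefold without odd cohomology. Let `ω_0`, `ω_1` be a basis of the relative differential forms of degree
two over `ℚ(x)`. We suppose that the period matrix near `x = 0` is `L(log(1/x)) P(x)`, where the entries of `P` are polynomials with any complex coefficients in a system of G-functions with rational coefficients (solutions of a differential
system with a regular singularity with rational exponents at infinity), the entries of `L(u)` are polynomials, and `L(u)` is invertible. If there is no degeneration at `x = 0` this is so with `L = 1`; for a family over a number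
field one uses the direct sum of the conjugates of the differential system, which is defined over `ℚ`; `x = 0` may also be a point with unipotent monodromy. The theorem is also for other families of even weight `w = 2m` with big orthogonal monodromy, if the
last part `H^p` of the Hodge decomposition which is not zero has dimension two or the two last parts have dimension one.

**Theorem.** Let `b ≥ 2` be an integer. There is a constant `K`, which depends only on the G-functions, `b`, `n` and on a bound `e` for the degrees of the polynomials, such that for all such families and all `N ≥ 2`: for all but at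
most `K log N` of the `t ≤ N` all Hodge classes in all tensor powers `T_t^{⊗ r}`, `T_t` the fibre over `x = b^(-t)`, are invariant under the special orthogonal group `SO(T_t)`, and for `n ≥ 3` the Hodge classes in `T_t ⊗ T_t` are the rational multiples of the class of the form.

The class of the form is algebraic, the component in `T ⊗ T` of the class of the diagonal. So for these `t` the Hodge conjecture is true for `X_t × X_t`, and since `H^3(X_t × X_t) = 0` the regulator `H^4_ℳ(X_t × X_t, ℚ(2)) → H^4_ℋ(X_t × X_t, ℚ(2))` is surjective: Q1 holds for `X_t × X_t`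
and `i = 4`, `j = 2`. More generally by the first fundamental theorem for the special orthogonal group (Weyl) the invariants in `T^{⊗ r}`, `r < n`, are spanned by the products of the form, and so the Hodge conjecture is true for the powers `X_t^r` with `r < n`: Q1 holds for `X_t^r` and all `i = 2j`
(the odd cohomology of `X_t^r` is zero). This was known for the very general fibre, for `t` outside a countable union of analytic sets; for surfaces with `p_g > 1` it is not known that Hodge classes on `X_t × X_t` are absolute Hodge, so it does not follow from results on the Galois representations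
for the fibres over rational points (Cadoret and Tamagawa). The other hand-in `MP_b2b689_ag.SurjectivityTimesFibres` is on products with one fibre `X_t × U`.

Proof. If the Lie algebra of an algebraic subgroup of `GL(T)` over `ℚ` (for example the stabiliser of a Hodge class) whose complexification contains the Hodge cocharacter does not contain `so(T)`, then there is a nonzero rational skew form on `T` with value zero at `(ω_0, ω_1)`, since the largest eigenvalue of the Hodge operator on
`so(T)` has multiplicity one. By the counting theorem on values of G-functions on geometric sequences (`Pool.Agent.X120.GS`) for all but few points this relation holds on the orbit of the pair `(ω_0, ω_1)` under the orthogonal group, and this is not possible. See `Pool.Agent.X120.OR`.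
-/

set_option autoImplicit false

open Matrix

open Pool.Agent.X120.BM Pool.Agent.X120.NF Pool.Agent.X120.OR

namespace Pool.Agent.Results.MP_b2b689_ag.PowersOfSurfacesAtPowers

section
variable {n : ℕ}

/-- The statement for the fibre over `x = b^(-t)`. For all weights `w = 2m`, symmetric forms `A` and Hodge structures with the first bilinear relation such that the upper part of the Hodge decomposition is given by the two period vectors: all Hodge classes `c` in the tensor
powers `V^{⊗ r}` are invariant under `SO(A)`, and for `n ≥ 3` the Hodge classes in `V ⊗ V` are the rational multiples of the class `A⁻¹` of the form. -/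
def HodgeClasses {G : GSystem} {n e : ℕ} (F : OPeriods G n e) (b t : ℕ) : Prop :=
  ∀ (w m : ℕ) (A : Matrix (Fin n) (Fin n) ℚ) (H : ℕ → Submodule ℂ (Fin n → ℂ)), w = 2 * m → Aᵀ = A → IsPolarized w A H → IsTop w H (F.vec b t) →
    (∃ Φ : Matrix (Fin n) (Fin n) ℂ, IsHodgeOperator w H Φ) →
      (∀ (r : ℕ) (c : (Fin r → Fin n) → ℚ), IsHodgeTensor w m H c → ∀ g : Matrix (Fin n) (Fin n) ℂ, g * toC A * gᵀ = toC A → g.det = 1 →
        tact (fun I => ((c I : ℚ) : ℂ)) g = fun I => ((c I : ℚ) : ℂ)) ∧
      (3 ≤ n → ∀ c : (Fin 2 → Fin n) → ℚ, IsHodgeTensor w m H c → ∃ q : ℚ, ∀ i j, c ![i, j] = q * A⁻¹ i j)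

theorem exists_third (hn : 3 ≤ n) (j b : Fin n) : ∃ i : Fin n, i ≠ j ∧ i ≠ b := by
  classical
  by_contra h
  push Not at h
  have h1 : (Finset.univ : Finset (Fin n)) ⊆ {j, b} := by
    intro i _
    rw [Finset.mem_insert, Finset.mem_singleton]
    by_cases hi : i = j
    · exact Or.inl hi
    · exact Or.inr (h i hi)
  have h2 := (Finset.card_le_card h1).trans Finset.card_le_two
  rw [Finset.card_univ, Fintype.card_fin] at h2
  omega

theorem scalar_of_comm (hn : 3 ≤ n) {A : Matrix (Fin n) (Fin n) ℚ} (hA : Aᵀ = A) (hdet : A.det ≠ 0) {D : Matrix (Fin n) (Fin n) ℚ}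
    (h : ∀ X, X * A + A * Xᵀ = 0 → X * D = D * X) : ∃ q : ℚ, D = q • 1 := by
  classical
  have hAu : IsUnit A.det := IsUnit.mk0 _ hdet
  obtain ⟨P, hP⟩ : ∃ P, P = A⁻¹ * D * A := ⟨_, rfl⟩
  have hK : ∀ i j : Fin n, ∀ a b : Fin n, (if a = i then D j b else 0) - (if a = j then D i b else 0) =
      (if b = j then P a i else 0) - (if b = i then P a j else 0) := by
    intro i j a b
    obtain ⟨K, hKd⟩ : ∃ K : Matrix (Fin n) (Fin n) ℚ, K = Matrix.single i j 1 - Matrix.single j i 1 := ⟨_, rfl⟩
    have hKt : Kᵀ = -K := by rw [hKd, Matrix.transpose_sub, Matrix.transpose_single, Matrix.transpose_single, neg_sub]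
    have h1 := h (A * K) (by
      rw [Matrix.transpose_mul, hKt, hA, Matrix.neg_mul, Matrix.mul_neg, ← Matrix.mul_assoc, add_neg_cancel])
    have h2 : K * D = P * K := by
      have h3 := congrArg (fun M => A⁻¹ * M) h1
      simp only [← Matrix.mul_assoc, Matrix.nonsing_inv_mul _ hAu, Matrix.one_mul] at h3
      rw [h3, hP]
    have h3 := congrFun (congrFun h2 a) b
    rw [hKd, Matrix.sub_mul, Matrix.mul_sub, Matrix.sub_apply, Matrix.sub_apply] at h3
    have e1 : ∀ i j : Fin n, ((Matrix.single i j (1 : ℚ)) * D) a b = if a = i then D j b else 0 := by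
      intro i j
      by_cases hai : a = i
      · subst hai
        rw [Matrix.single_mul_apply_same, one_mul, if_pos rfl]
      · rw [Matrix.single_mul_apply_of_ne _ _ _ _ _ hai, if_neg hai]
    have e2 : ∀ i j : Fin n, (P * (Matrix.single i j (1 : ℚ))) a b = if b = j then P a i else 0 := by
      intro i j
      by_cases hbj : b = j
      · subst hbj
        rw [Matrix.mul_single_apply_same, mul_one, if_pos rfl]
      · rw [Matrix.mul_single_apply_of_ne _ _ _ _ _ hbj, if_neg hbj]
    rw [e1, e1, e2, e2] at h3
    exact h3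
  have hoff : ∀ j b : Fin n, b ≠ j → D j b = 0 := by
    intro j b hbj
    obtain ⟨i, hij, hib⟩ := exists_third hn j b
    have h1 := hK i j i b
    rw [if_pos rfl, if_neg hij, if_neg hbj, if_neg (Ne.symm hib)] at h1
    linear_combination h1
  have hdiag : ∀ i j : Fin n, i ≠ j → P i i = D j j := by
    intro i j hij
    have h1 := hK i j i j
    rw [if_pos rfl, if_neg hij, if_pos rfl, if_neg (Ne.symm hij)] at h1
    linear_combination -h1
  have hall : ∀ j k : Fin n, D j j = D k k := by
    intro j k
    obtain ⟨i, hij, hik⟩ := exists_third hn j k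
    rw [← hdiag i j hij, ← hdiag i k hik]
  refine ⟨D ⟨0, by omega⟩ ⟨0, by omega⟩, ?_⟩
  ext j b
  rw [Matrix.smul_apply, Matrix.one_apply, smul_eq_mul]
  by_cases hjb : j = b
  · subst hjb
    rw [if_pos rfl, mul_one]
    exact hall _ _
  · rw [if_neg hjb, mul_zero]
    exact hoff j b (Ne.symm hjb)

theorem square_classes {G : GSystem} {e w m : ℕ} {F : OPeriods G n e} {b t : ℕ} (hgen : Generic F b t) (hn : 3 ≤ n) {A : Matrix (Fin n) (Fin n) ℚ} {H : ℕ → Submodule ℂ (Fin n → ℂ)}
    (hm : w = 2 * m) (hA : Aᵀ = A) (hH : IsPolarized w A H) (ht : IsTop w H (F.vec b t)) {Φ : Matrix (Fin n) (Fin n) ℂ} (hop : IsHodgeOperator w H Φ)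
    {c : (Fin 2 → Fin n) → ℚ} (hc : IsHodgeTensor w m H c) : ∃ q : ℚ, ∀ i j, c ![i, j] = q * A⁻¹ i j := by
  classical
  have hAu : IsUnit A.det := IsUnit.mk0 _ hH.nondeg
  obtain ⟨C, hC⟩ : ∃ C : Matrix (Fin n) (Fin n) ℚ, C = Matrix.of fun i j => c ![i, j] := ⟨_, rfl⟩
  -- `A C` commutes with the Hodge operator
  have h1 : ∀ T : (Fin 2 → Fin n) → ℂ, T ∈ Submodule.span ℂ {T : (Fin 2 → Fin n) → ℂ | ∃ p : Fin 2 → ℕ, (∀ k, p k ≤ w) ∧ ∑ k, p k = 2 * m ∧
      ∃ v : Fin 2 → Fin n → ℂ, (∀ k, v k ∈ H (p k)) ∧ T = fun I => ∏ k, v k (I k)} →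
      Φ * (toC A * Matrix.of fun i j => T ![i, j]) = toC A * (Matrix.of fun i j => T ![i, j]) * Φ := by
    intro T hT
    induction hT using Submodule.span_induction with
    | mem T hT =>
      obtain ⟨p, hp, hs, v, hv, rfl⟩ := hT
      rw [Fin.sum_univ_two] at hs
      have e1 : (Matrix.of fun i j => (fun I : Fin 2 → Fin n => ∏ k, v k (I k)) ![i, j]) = Matrix.vecMulVec (v 0) (v 1) := by
        ext i j
        show ∏ k, v k (![i, j] k) = v 0 i * v 1 j
        rw [Fin.prod_univ_two]
        rfl
      rw [e1]
      have e2 : Φ * toC A = (w : ℂ) • toC A - toC A * Φᵀ := by rw [← op_form hH hop]; abel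
      have e3 : Matrix.vecMulVec ((p 0 : ℂ) • v 0) (v 1) = (p 0 : ℂ) • Matrix.vecMulVec (v 0) (v 1) := by
        ext i j
        simp only [Matrix.vecMulVec_apply, Matrix.smul_apply, Pi.smul_apply, smul_eq_mul]
        ring
      have e4 : Matrix.vecMulVec (v 0) ((p 1 : ℂ) • v 1) = (p 1 : ℂ) • Matrix.vecMulVec (v 0) (v 1) := by
        ext i j
        simp only [Matrix.vecMulVec_apply, Matrix.smul_apply, Pi.smul_apply, smul_eq_mul]
        ring
      have e6 : Φᵀ * Matrix.vecMulVec (v 0) (v 1) = (p 0 : ℂ) • Matrix.vecMulVec (v 0) (v 1) := by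
        rw [Matrix.mul_vecMulVec, Matrix.mulVec_transpose, hop (p 0) (hp 0) (v 0) (hv 0), e3]
      have e7 : Matrix.vecMulVec (v 0) (v 1) * Φ = (p 1 : ℂ) • Matrix.vecMulVec (v 0) (v 1) := by
        rw [Matrix.vecMulVec_mul, hop (p 1) (hp 1) (v 1) (hv 1), e4]
      rw [← Matrix.mul_assoc, e2, Matrix.sub_mul, Matrix.smul_mul, Matrix.mul_assoc (toC A) Φᵀ, e6, Matrix.mul_assoc (toC A), e7, Matrix.mul_smul, Matrix.mul_smul, ← sub_smul]
      congr 1
      have e5 : (w : ℂ) = (p 0 : ℂ) + p 1 := by
        have : w = p 0 + p 1 := by omega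
        rw [this]
        push_cast
        rfl
      rw [e5]
      ring
    | zero =>
      have e1 : (Matrix.of fun i j => (0 : (Fin 2 → Fin n) → ℂ) ![i, j]) = (0 : Matrix (Fin n) (Fin n) ℂ) := rfl
      rw [e1, Matrix.mul_zero, Matrix.mul_zero, Matrix.zero_mul]
    | add S T _ _ hS hT =>
      have e1 : (Matrix.of fun i j => (S + T) ![i, j]) = (Matrix.of fun i j => S ![i, j]) + (Matrix.of fun i j => T ![i, j] : Matrix (Fin n) (Fin n) ℂ) := rfl
      rw [e1, Matrix.mul_add, Matrix.mul_add, Matrix.add_mul, hS, hT]
    | smul a T _ hT =>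
      have e1 : (Matrix.of fun i j => (a • T) ![i, j]) = a • (Matrix.of fun i j => T ![i, j] : Matrix (Fin n) (Fin n) ℂ) := rfl
      rw [e1, Matrix.mul_smul, Matrix.mul_smul, Matrix.smul_mul, hT]
  have h2 := h1 _ hc
  have e1 : (Matrix.of fun i j => (fun I : Fin 2 → Fin n => ((c I : ℚ) : ℂ)) ![i, j]) = toC C := by
    rw [hC]
    rfl
  have e2 : toC A * toC C = toC (A * C) := by
    ext i j
    show ∑ l, ((A i l : ℚ) : ℂ) * ((C l j : ℚ) : ℂ) = ((∑ l, A i l * C l j : ℚ) : ℂ)
    push_cast
    rfl
  rw [e1, e2] at h2
  -- the centraliser of `A C`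
  let 𝔪 : Submodule ℚ (Matrix (Fin n) (Fin n) ℚ) :=
    { carrier := {X | X * (A * C) = (A * C) * X}
      add_mem' := fun {X Y} hX hY => by
        show (X + Y) * (A * C) = (A * C) * (X + Y)
        rw [Matrix.add_mul, Matrix.mul_add, hX, hY]
      zero_mem' := by
        show (0 : Matrix (Fin n) (Fin n) ℚ) * (A * C) = (A * C) * 0
        rw [Matrix.zero_mul, Matrix.mul_zero]
      smul_mem' := fun a {X} hX => by
        show (a • X) * (A * C) = (A * C) * (a • X)
        rw [Matrix.smul_mul, Matrix.mul_smul, hX] }
  have hlie : IsLie₀ 𝔪 := by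
    intro X hX Y hY
    show (X * Y - Y * X) * (A * C) = (A * C) * (X * Y - Y * X)
    have hX' : X * (A * C) = (A * C) * X := hX
    have hY' : Y * (A * C) = (A * C) * Y := hY
    rw [Matrix.sub_mul, Matrix.mul_sub, Matrix.mul_assoc X Y, hY', ← Matrix.mul_assoc X, hX', Matrix.mul_assoc Y X, hX', ← Matrix.mul_assoc Y, hY', Matrix.mul_assoc (A * C), Matrix.mul_assoc (A * C)]
  have hΦ : Φ - ((0 : ℚ) : ℂ) • 1 ∈ extend₀ ℂ 𝔪 := by
    rw [Rat.cast_zero, zero_smul, sub_zero]
    refine mem_of_phM fun φ => ?_
    show Φ.map φ * (A * C) = (A * C) * Φ.map φ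
    have h3 := congrArg (fun M : Matrix (Fin n) (Fin n) ℂ => M.map φ) h2
    have e3 : (Φ * toC (A * C)).map φ = Φ.map φ * (A * C) := by
      rw [toC_alg]
      exact phM_mulR φ _ _
    have e4 : (toC (A * C) * Φ).map φ = (A * C) * Φ.map φ := by
      rw [toC_alg]
      exact phM_mulL φ _ _
    rw [← e3, ← e4]
    exact h3
  obtain ⟨q, hq⟩ := scalar_of_comm hn hA hH.nondeg (D := A * C) (fun X hX => hgen w A H hA hH ht Φ hop 𝔪 hlie 0 hΦ X hX)
  refine ⟨q, fun i j => ?_⟩
  have h3 : C = q • A⁻¹ := by
    have h4 := congrArg (fun M => A⁻¹ * M) hq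
    simp only [← Matrix.mul_assoc, Matrix.nonsing_inv_mul _ hAu, Matrix.one_mul, Matrix.mul_smul, Matrix.mul_one] at h4
    exact h4
  have h5 := congrFun (congrFun h3 i) j
  rw [hC] at h5
  exact h5

end

/-- **The theorem.** -/
theorem result (G : GSystem) (n e b : ℕ) (hb : 2 ≤ b) :
    ∃ K : ℝ, 0 ≤ K ∧ ∀ F : OPeriods G n e, ∀ N : ℕ, 2 ≤ N →
      (({t : ℕ | 1 ≤ t ∧ t ≤ N ∧ ¬ HodgeClasses F b t}.ncard : ℕ) : ℝ) ≤ K * Real.log N := by
  obtain ⟨K, hK, hcount⟩ := count_generic G n e b hb
  refine ⟨K, hK, fun F N hN => le_trans ?_ (hcount F N hN)⟩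
  refine Nat.cast_le.2 (Set.ncard_le_ncard ?_ ((Set.finite_Iic N).subset fun t ht => ht.2.1))
  rintro t ⟨ht1, htN, hnot⟩
  refine ⟨ht1, htN, fun hgen => hnot ?_⟩
  intro w m A H hm hA hH htop hΦ
  obtain ⟨Φ, hop⟩ := hΦ
  refine ⟨fun r c hc g hg hg1 => ?_, fun hn c hc => square_classes hgen hn hm hA hH htop hop hc⟩
  have h1 := so_mem hgen hA hH htop hop (stab_contains hc hH hm) (algebraMap ℚ ℂ) (g := g) (by rw [← toC_alg]; exact hg) hg1
  have h2 := (stab_iff c (algebraMap ℚ ℂ) g).1 h1.2
  have h3 : (fun I => algebraMap ℚ ℂ (c I)) = fun I => ((c I : ℚ) : ℂ) := by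
    funext I
    rw [eq_ratCast]
  rw [h3] at h2
  exact h2

end Pool.Agent.Results.MP_b2b689_ag.PowersOfSurfacesAtPowers
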