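import Pool.Agent.X120.NF.Hdg

/-!
# Surjectivity of the regulator onto the Hodge classes for products of a variety with the fibres over the points `b^(-t)`

Let `f : X → S` be a family of smooth projective (or quasi-projective) varieties over an open part `S` of the projective line, defined over a number field, such that the cohomology of the fibres is the sum of a variation `V` of rank `n` and of classes of algebraic cycles of the family (with constant coefficients). Examples
are families of hypersurfaces or complete intersections of odd dimension, of Calabi-Yau threefolds whose even cohomology is algebraic, and surfaces with `H^1 = 0`, `V` the generic transcendental part of `H^2`. Let `U` be any smooth quasi-projective variety over a number field. Then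
`H^i(X_t × U) = V_t ⊗ V_0 ⊕ V'_1 ⊕ … ⊕ V'_h`, where `V_0 = H^(i-w)(U)` and `V'_l = H^(i - 2 a_l)(U)(-a_l)`, one for each algebraic class `Z_l` of codimension `a_l`. The group `Hg^(i,j)(X_t × U)` is the group of the rational elements of `W_(2j) H^i ∩ F^j`. If `ξ` is an element of
`H_M^(i - 2 a_l)(U, ℚ(j - a_l))`, then the regulator of `Z_l × ξ` is the image of the regulator of `ξ` in `V'_l`.

Let `ω` be a section over `ℚ̄(x)` of the annihilator of `F^(q_1) V` in the dual of the de Rham cohomology. We suppose that near `x = 0` the vector of the `n` periods of `ω` is `L(log(1/x)) P(x)`, where the entries of `P` are polynomials with any complex coefficients in a system of G-functions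
with rational coefficients (solutions of a differential system with a regular singularity with rational exponents at infinity), the entries of `L(u)` are polynomials, and `L(u)` is invertible (`L = 1` if there is no degeneration at `x = 0`), and that the functions
`1`, `P_1, …, P_n` are linearly independent over `ℂ(x)`. This is so if the monodromy representation is irreducible and not trivial. Let `q_1 + q_2 ≤ j + 1`. We suppose that `W_(2j-w) V_0` (`w` the weight of `V`), which we denote by `V_0` in the theorem, contains no nonzero rational element of `F^(q_2)`. If `V` is pure of weight `w` and `ω` is a form in `F^p V`, `2p > w`, then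
`q_1 = w + 1 - p` and `q_2 = j - w + p`, and this holds for all `U`, since the weights of `W_(2j-w) V_0` are smaller than `2 q_2`.

**Theorem.** Let `b ≥ 2` be an integer. There is a constant `C`, which depends only on the G-functions, `b`, `n`, `n_0` and on a bound `e` for the degrees of the polynomials, such that for all such families, all `V_0` of dimension `n_0` and all `N ≥ 2`: for all but at
most `C log N` of the `t ≤ N`, `x = b^(-t)`, the regulator maps onto `Hg^(i,j)(X_t × U)` if for all `l` the regulator of `U` maps onto `Hg^(i - 2 a_l, j - a_l)(U)`.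

So for these `X_t` the surjectivity part of the conjecture for all `X_t × U` (for given `U` and all `i`, `j`: finitely many conditions, for all but `C log N` of the `t ≤ N`) is reduced to `U`; it holds for example for the products of `X_t` and complements of
hyperplane arrangements, and for `U` projective and `i = 2j` the Hodge conjecture for `X_t × U` follows from the Hodge conjecture for `U`.

For very general complex fibres this is easy (the Hodge classes are invariant under the monodromy group); it holds for `t` outside a countable set. For fibres over given number fields such a statement was not known for families which are not of abelian type; there is no big monodromy theorem or `ℓ`-adic statement from which it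
follows, since Hodge classes are not known to be absolute. For families with big symplectic monodromy and projective `U` see `Pool.Agent.Results.MP_e2e4f5_ag.BigMonodromyTimesVariety` (tensor powers of several fibres); here no condition on the monodromy except the linear independence of the
periods, and mixed Hodge structures.

Proof. A Hodge class in `V_t ⊗ V_0` gives linear relations between the periods of `ω_t` with coefficients in the space over `ℚ` spanned by the coordinates of a basis of `(F^(q_2) V_0)^⊥`. By the counting theorem on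
values of G-functions on geometric sequences (`Pool.Agent.X120.GS`) for all but few points these relations are trivial, and the class is zero.
-/

set_option autoImplicit false

open Pool.Agent.X120.BM Pool.Agent.X120.NF

namespace Pool.Agent.Results.MP_b2b689_ag.SurjectivityTimesFibres

/-- `(M, x_1, …, x_h)` is a Hodge class of `V ⊗ V_0 ⊕ V'_1 ⊕ … ⊕ V'_h`: it is in `F^m`, the filtration on `V'_l` is the filtration of `Fil' l`, shifted by `a_l`, and `x_l` is in the subspace `W' l` of small weight. -/
def IsHodgeClass {n n₀ h : ℕ} {d : Fin h → ℕ} (m : ℤ) (Fil : ℤ → Submodule ℂ (Fin n → ℂ)) (Fil₀ : ℤ → Submodule ℂ (Fin n₀ → ℂ))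
    (a : Fin h → ℤ) (Fil' : ∀ l, ℤ → Submodule ℂ (Fin (d l) → ℂ)) (W' : ∀ l, Submodule ℚ (Fin (d l) → ℚ))
    (M : Matrix (Fin n) (Fin n₀) ℚ) (x : ∀ l, Fin (d l) → ℚ) : Prop :=
  castM M ∈ mixedFiltration Fil Fil₀ m ∧ ∀ l, x l ∈ W' l ∧ castV (x l) ∈ Fil' l (m - a l)

/-- For all mixed Hodge structures `V` with the Hodge filtration `Fil` such that the vector of the periods at `x = b^(-t)` is in `(F^(q_1) V)^⊥`, all `V'_l`, all groups `Mot` and homomorphisms `R` (the regulator) from `Mot` to
`V ⊗ V_0 ⊕ V'_1 ⊕ … ⊕ V'_h`: if the Hodge classes in `V'_1, …, V'_h` are in the image of `R`, then all Hodge classes are. -/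
def Good {G : GSystem} {n n₀ e : ℕ} (F : Functions G n e) (m q₁ : ℤ) (Fil₀ : ℤ → Submodule ℂ (Fin n₀ → ℂ)) (b t : ℕ) : Prop :=
  ∀ (Fil : ℤ → Submodule ℂ (Fin n → ℂ)), Antitone Fil → (∀ f ∈ Fil q₁, dotProduct f (F.val b t) = 0) →
    ∀ (h : ℕ) (d : Fin h → ℕ) (a : Fin h → ℤ) (Fil' : ∀ l, ℤ → Submodule ℂ (Fin (d l) → ℂ)) (W' : ∀ l, Submodule ℚ (Fin (d l) → ℚ))
      (Mot : Type) [AddCommGroup Mot] [Module ℚ Mot] (R : Mot →ₗ[ℚ] Matrix (Fin n) (Fin n₀) ℚ × (∀ l, Fin (d l) → ℚ)),
      (∀ (l : Fin h) (x : Fin (d l) → ℚ), IsHodgeClass m Fil Fil₀ a Fil' W' 0 (Pi.single l x) → ∃ ξ, R ξ = (0, Pi.single l x)) →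
      ∀ M x, IsHodgeClass m Fil Fil₀ a Fil' W' M x → ∃ ξ, R ξ = (M, x)

/-- **The theorem.** -/
theorem result (G : GSystem) (n n₀ e b : ℕ) (hb : 2 ≤ b) :
    ∃ C : ℝ, 0 ≤ C ∧ ∀ (F : Functions G n e) (m q₁ q₂ : ℤ), q₁ + q₂ ≤ m + 1 →
      ∀ (Fil₀ : ℤ → Submodule ℂ (Fin n₀ → ℂ)), Antitone Fil₀ → (∀ x : Fin n₀ → ℚ, castV x ∈ Fil₀ q₂ → x = 0) → ∀ N : ℕ, 2 ≤ N →
      (({t : ℕ | 1 ≤ t ∧ t ≤ N ∧ ¬ Good F m q₁ Fil₀ b t}.ncard : ℕ) : ℝ) ≤ C * Real.log N := by
  classical
  obtain ⟨C, hC, hcount⟩ := lin_count G n e (n₀ * n₀) b hb
  refine ⟨C, hC, ?_⟩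
  intro F m q₁ q₂ hm Fil₀ hF₀ hno N hN
  -- the space of the coefficients
  obtain ⟨V₀, S, hVf, hVr, hS, hSp⟩ := exists_coords (annihilator (Fil₀ q₂))
  refine le_trans ?_ (hcount F V₀ hVr N hN)
  have hfin : {t : ℕ | 1 ≤ t ∧ t ≤ N ∧ ∃ q : Fin n → ℂ, q ≠ 0 ∧ (∀ j, q j ∈ V₀) ∧ ∑ j, q j * F.val b t j = 0}.Finite :=
    (Set.finite_Iic N).subset fun t ht => ht.2.1
  refine Nat.cast_le.2 (Set.ncard_le_ncard ?_ hfin)
  rintro t ⟨ht1, htN, hnot⟩
  refine ⟨ht1, htN, ?_⟩
  by_contra hno'
  apply hnot
  intro Fil hF hω h d a Fil' W' Mot _ _ R hR M x hMx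
  have hgood : ∀ q : Fin n → ℂ, (∀ j, q j ∈ V₀) → ∑ j, q j * F.val b t j = 0 → q = 0 := by
    intro q hq h0
    by_contra hq0
    exact hno' ⟨q, hq0, hq, h0⟩
  have h1 : M = 0 := hodge_zero hF hF₀ hm hω hS hSp hno hgood hMx.1
  subst h1
  have h2 : ∀ l, ∃ ξ, R ξ = (0, Pi.single l (x l)) := by
    intro l
    refine hR l (x l) ⟨hMx.1, fun l' => ?_⟩
    by_cases hl : l' = l
    · subst hl
      rw [Pi.single_eq_same]
      exact hMx.2 l'
    · rw [Pi.single_eq_of_ne hl]
      refine ⟨Submodule.zero_mem _, ?_⟩
      have h3 : castV (0 : Fin (d l') → ℚ) = 0 := by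
        funext i
        show (((0 : ℚ)) : ℂ) = 0
        exact Rat.cast_zero
      rw [h3]
      exact Submodule.zero_mem _
  choose ξ hξ using h2
  refine ⟨∑ l, ξ l, ?_⟩
  rw [map_sum, Finset.sum_congr rfl fun l _ => hξ l]
  refine Prod.ext ?_ ?_
  · rw [Prod.fst_sum]
    exact Finset.sum_const_zero
  · rw [Prod.snd_sum]
    exact Finset.univ_sum_single x

end Pool.Agent.Results.MP_b2b689_ag.SurjectivityTimesFibres
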